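import Pool.Agent.Helper877_Ball.Tree

/-!
# Branching points of a Steiner tree inside a terminal-free ball, in dimension at least three

Question 1 of the problem for `d ≥ 3`: the supremum `N_d` is infinite, and it is attained: one
single Steiner tree has infinitely many branching points inside a ball free of terminals.
-/

set_option autoImplicit false

open scoped MeasureTheory ENNReal
open MeasureTheory Set

namespace Pool.Agent.Results.MP_8790b5_co.InfiniteBranching

/-- `S` is a Steiner tree for the set `A` of terminals: a closed connected set of finite length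
that contains `A` and minimises `ℋ¹` among all closed connected sets containing `A`. -/
def IsSteinerTree {d : ℕ} (A S : Set (EuclideanSpace ℝ (Fin d))) : Prop :=
  IsClosed S ∧ IsConnected S ∧ A ⊆ S ∧ μH[1] S < ⊤ ∧
    ∀ T : Set (EuclideanSpace ℝ (Fin d)), IsClosed T → IsConnected T → A ⊆ T → μH[1] S ≤ μH[1] T

/-- `p` is a branching point of `S`: a point of `S` outside `A` such that in some ball around `p`
the set `S` is the union of at least three segments (radii) from `p` in different unit
directions `u`. -/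
def IsBranching {d : ℕ} (A S : Set (EuclideanSpace ℝ (Fin d))) (p : EuclideanSpace ℝ (Fin d)) :
    Prop :=
  p ∈ S \ A ∧ ∃ ρ : ℝ, 0 < ρ ∧ ∃ F : Finset (EuclideanSpace ℝ (Fin d)), 3 ≤ F.card ∧
    (∀ u ∈ F, ‖u‖ = 1) ∧
    S ∩ Metric.ball p ρ = {x | ∃ u ∈ F, ∃ t : ℝ, 0 ≤ t ∧ x = p + t • u} ∩ Metric.ball p ρ

/-- `N_d`: the supremum of the number of branching points of `S` in the open ball `B_r(x)`, over
all compact sets `A`, all Steiner trees `S` for `A` and all balls `B_r(x)` without points
of `A`. -/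
noncomputable def N (d : ℕ) : ℕ∞ :=
  sSup {n | ∃ (A S : Set (EuclideanSpace ℝ (Fin d))) (x : EuclideanSpace ℝ (Fin d)) (r : ℝ),
    IsCompact A ∧ IsSteinerTree A S ∧ 0 < r ∧ A ∩ Metric.ball x r = ∅ ∧
      n = Set.encard {p | p ∈ Metric.ball x r ∧ IsBranching A S p}}

/-- In every dimension `d ≥ 3` there is a single Steiner tree with infinitely many branching
points inside a ball free of terminals; in particular `N_d = ∞`. -/
theorem result : ∀ d : ℕ, 3 ≤ d → N d = ⊤ ∧
    ∃ (A S : Set (EuclideanSpace ℝ (Fin d))) (x : EuclideanSpace ℝ (Fin d)) (r : ℝ),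
      IsCompact A ∧ IsSteinerTree A S ∧ 0 < r ∧ A ∩ Metric.ball x r = ∅ ∧
        {p | p ∈ Metric.ball x r ∧ IsBranching A S p}.Infinite := by
  intro d hd
  have hex : ∃ (A S : Set (EuclideanSpace ℝ (Fin d))) (x : EuclideanSpace ℝ (Fin d)) (r : ℝ),
      IsCompact A ∧ IsSteinerTree A S ∧ 0 < r ∧ A ∩ Metric.ball x r = ∅ ∧
        {p | p ∈ Metric.ball x r ∧ IsBranching A S p}.Infinite := by
    let e : Fin 3 → EuclideanSpace ℝ (Fin d) := fun i => EuclideanSpace.single (Fin.castLE hd i) 1
    have he : Orthonormal ℝ e :=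
      EuclideanSpace.orthonormal_single.comp _ (Fin.castLE_injective hd)
    refine ⟨Pool.Agent.Helper877_Ball.AA e, Pool.Agent.Helper877_Ball.SS e, 0, 1,
      Pool.Agent.Helper877_Ball.AA_compact e, Pool.Agent.Helper877_Ball.SS_steiner he, one_pos,
      Pool.Agent.Helper877_Ball.AA_ball he, ?_⟩
    refine (Set.infinite_range_of_injective (Pool.Agent.Helper877_Ball.PP_inj he)).mono ?_
    rintro _ ⟨i, rfl⟩
    refine ⟨Pool.Agent.Helper877_Ball.PP_ball he i,
      ⟨Pool.Agent.Helper877_Ball.PP_mem i, Pool.Agent.Helper877_Ball.PP_not_mem he i⟩,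
      1 - Pool.Agent.Helper877_Ball.hh (Pool.Agent.Helper877_Ball.th i), ?_,
      Pool.Agent.Helper877_Ball.FF e i, Pool.Agent.Helper877_Ball.FF_card he i,
      fun u hu => Pool.Agent.Helper877_Ball.FF_norm he i hu,
      Pool.Agent.Helper877_Ball.SS_near he i⟩
    have := Pool.Agent.Helper877_Ball.hh_lt (Pool.Agent.Helper877_Ball.th_pos i)
      (Pool.Agent.Helper877_Ball.th_le i)
    linarith
  refine ⟨?_, hex⟩
  obtain ⟨A, S, x, r, hA, hS, hr, hAr, hinf⟩ := hex
  refine top_le_iff.mp (le_sSup ⟨A, S, x, r, hA, hS, hr, hAr, ?_⟩)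
  exact (Set.encard_eq_top hinf).symm

end Pool.Agent.Results.MP_8790b5_co.InfiniteBranching
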